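import Pool.Agent.helper60.EPT.Spec

set_option autoImplicit false

namespace Pool.Agent.EPT

open D

/-- one step -/
def DDF_f (y : D) : D := if tv (y.snd.fst ∈ y.fst.toList) = nil then cons y.snd.fst y.fst else y.fst

theorem DDF_fold (L M : List D) : L.foldl (fun acc h => DDF_f (cons acc (cons h nil))) (ofList M) =
    ofList (L.foldl (fun acc a => if a ∈ acc then acc else a :: acc) M) := by
  induction L generalizing M with
  | nil => rfl
  | cons a L ih =>
    rw [List.foldl_cons, List.foldl_cons]
    have h1 : DDF_f (cons (ofList M) (cons a nil)) = ofList (if a ∈ M then M else a :: M) := by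
      unfold DDF_f
      simp only [snd_cons, fst_cons, toList_ofList]
      by_cases h : a ∈ M
      · rw [if_neg (by rw [tv_eq_nil]; exact fun h2 => h2 h), if_pos h]
      · rw [if_pos (by rw [tv_eq_nil]; exact h), if_neg h, ofList_cons]
    rw [h1, ih]

theorem DDF_size (L M : List D) : (ofList (L.foldl (fun acc a => if a ∈ acc then acc else a :: acc) M)).size ≤
    (ofList M).size + (L.map size).sum + L.length := by
  induction L generalizing M with
  | nil => simp
  | cons a L ih =>
    rw [List.foldl_cons]
    by_cases h : a ∈ M
    · rw [if_pos h]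
      have h1 := ih M
      rw [List.map_cons, List.sum_cons, List.length_cons]
      omega
    · rw [if_neg h]
      have h1 := ih (a :: M)
      rw [ofList_cons, size_cons] at h1
      rw [List.map_cons, List.sum_cons, List.length_cons]
      omega

theorem DDF (hC : Cal) (hANY : ANY_stmt) : DDF_stmt := by
  intro l hl
  have hf : FP DDF_f := by
    have h1 : FP fun y : D => y.fst := hC.fst _ hC.id
    have h2 : FP fun y : D => y.snd.fst := hC.fst _ (hC.snd _ hC.id)
    have h3 : FP fun y : D => tv (y.snd.fst ∈ y.fst.toList) := hANY.2 _ _ h2 h1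
    have h4 : FP fun y : D => cons y.snd.fst y.fst := hC.cons _ _ h2 h1
    exact hC.cond _ _ _ h3 h1 h4
  have hfold := hC.fold DDF_f l (fun _ => nil) (fun _ => nil) hf hl (hC.const nil) (hC.const nil) (by
    obtain ⟨c, hc⟩ := hC.bound l hl
    refine ⟨c, ?_⟩
    intro x L hL
    refine le_trans ?_ (hc x)
    have h1 := DDF_fold L []
    rw [ofList_nil] at h1
    rw [h1]
    have h2 := DDF_size L []
    rw [ofList_nil, size_nil] at h2
    obtain ⟨t, ht⟩ := hL
    have h3 : (l x).size = (((L ++ t).map size).sum) + (L ++ t).length + 1 := by
      rw [ht, ← size_ofList, ofList_toList]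
    rw [List.map_append, List.sum_append, List.length_append] at h3
    omega)
  have h5 : (fun x => (l x).toList.foldl (fun acc h => DDF_f (cons acc (cons h nil))) nil) = fun x => ofList (dd (l x).toList) := by
    funext x
    exact DDF_fold (l x).toList []
  rw [h5] at hfold
  exact hfold

end Pool.Agent.EPT
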