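import Pool.Agent.helper60.EPT.SpecS

set_option autoImplicit false

namespace Pool.Agent.EPT

open D

/-- one step -/
def LST_f (g : D → D) (w : D) : D := if g (cv w.snd.fst) = nil then w.fst else one

theorem LST_fold (g : D → D) (L : List D) (acc : D) (h0 : acc.size ≤ 3) :
    (L.foldl (fun acc h => LST_f g (cons acc (cons h nil))) acc).size ≤ 3 ∧
    (L.foldl (fun acc h => LST_f g (cons acc (cons h nil))) acc ≠ nil ↔ acc ≠ nil ∨ ∃ G ∈ L, g (cv G) ≠ nil) := by
  induction L generalizing acc with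
  | nil => simp [h0]
  | cons a L ih =>
    rw [List.foldl_cons]
    have h1 : LST_f g (cons acc (cons a nil)) = if g (cv a) = nil then acc else one := rfl
    rw [h1]
    by_cases h : g (cv a) = nil
    · rw [if_pos h]
      obtain ⟨i1, i2⟩ := ih acc h0
      refine ⟨i1, i2.trans ?_⟩
      constructor
      · rintro (h2 | ⟨G, hG, hg⟩)
        · exact Or.inl h2
        · exact Or.inr ⟨G, List.mem_cons_of_mem _ hG, hg⟩
      · rintro (h2 | ⟨G, hG, hg⟩)
        · exact Or.inl h2
        · rcases List.mem_cons.1 hG with rfl | hG'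
          · exact absurd h hg
          · exact Or.inr ⟨G, hG', hg⟩
    · rw [if_neg h]
      obtain ⟨i1, i2⟩ := ih one (by simp [one])
      refine ⟨i1, i2.trans ?_⟩
      constructor
      · intro _
        exact Or.inr ⟨a, List.mem_cons_self, h⟩
      · intro _
        exact Or.inl (by simp [one])

theorem LST_sum (l : List D) (F : D → ℕ) (G : D) (h : G ∈ l) : F G ≤ (l.map F).sum := by
  induction l with
  | nil => simp at h
  | cons a l ih =>
    rw [List.map_cons, List.sum_cons]
    rcases List.mem_cons.1 h with rfl | h'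
    · omega
    · have := ih h'
      omega

theorem LST (hC : Cal) (hL : CalL) (hPBC : PBC_stmt) (hRBA : RBA_stmt) (hRCG : RCG_stmt) (hRCO : RCO_stmt) (hRFX : RFX_stmt) (hFRT : FRT_stmt) (hDFD : DFD_stmt) : LST_stmt := by
  intro hFS
  obtain ⟨p, c, hp⟩ := hFS
  obtain ⟨pb1, pb2, pb3, pb4, pb5, pb6⟩ := hPBC
  obtain ⟨rcg1, rcg2, rcg3, rcg4⟩ := hRCG
  choose g tm hrun hsat htm using hp
  set S0 : D → ℕ := fun z => 2 ^ Mx z + z.size with hS0
  have hg : RT S0 g := by
    refine ⟨p, 2 * c, fun z => ⟨tm z, ?_, hrun z⟩⟩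
    have h1 : tm z ≤ 2 ^ (c * Mx z) * z.size ^ c := htm z
    have h2 : 2 ^ (c * Mx z) ≤ (S0 z) ^ c := by
      rw [mul_comm, pow_mul]
      exact Nat.pow_le_pow_left (Nat.le_add_right _ _) c
    have h3 : z.size ^ c ≤ (S0 z) ^ c := Nat.pow_le_pow_left (Nat.le_add_left _ _) c
    calc tm z ≤ 2 ^ (c * Mx z) * z.size ^ c := h1
      _ ≤ (S0 z) ^ c * (S0 z) ^ c := Nat.mul_le_mul h2 h3
      _ = (S0 z) ^ (2 * c) := by rw [← pow_add, two_mul]
      _ ≤ (S0 z + 2 * c) ^ (2 * c) := Nat.pow_le_pow_left (Nat.le_add_right _ _) _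
  set S' : D → ℕ := fun w => 2 ^ Mx (cv w.snd.fst) + w.size + (cv w.snd.fst).size with hS'
  have hPBS' : PB S' size := pb5 S' size S' (pb2 S') (fun w => by
    show w.size ≤ 2 ^ Mx (cv w.snd.fst) + w.size + (cv w.snd.fst).size
    exact Nat.le_trans (Nat.le_add_left _ _) (Nat.le_add_right _ _))
  have hcv : FP fun w : D => cv w.snd.fst := hC.comp cv (fun w => w.snd.fst) hDFD.2.1 (hC.fst _ (hC.snd _ hC.id))
  have hcv' : RT S' fun w : D => cv w.snd.fst := rcg3 size S' _ hcv hPBS'
  have hgcv : RT S' fun w : D => g (cv w.snd.fst) := rcg1 S' S0 g (fun w => cv w.snd.fst) hg hcv' (pb5 S' _ S' (pb2 S') (fun w => by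
    show 2 ^ Mx (cv w.snd.fst) + (cv w.snd.fst).size ≤ 2 ^ Mx (cv w.snd.fst) + w.size + (cv w.snd.fst).size
    exact Nat.add_le_add_right (Nat.le_add_right _ _) _))
  have hone : RT S' fun _ : D => one := (hRBA.1 S' hPBS').2 one
  have hfst : RT S' fun w : D => w.fst := rcg3 size S' _ (hC.fst _ hC.id) hPBS'
  have hf : RT S' (LST_f g) := (hRCO S' hPBS' (fun _ => one) (fun w => w.fst) hone hfst).2 _ hgcv
  have hS12 : ∀ x, S1 x ≤ S2 x := fun x => Nat.le_add_right _ _
  have hs1 : ∀ x : D, x.size ≤ S1 x := fun x => Nat.le_add_left _ _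
  have hPBS2 : PB S2 size := pb5 S2 size S2 (pb2 S2) (fun x => (hs1 x).trans (hS12 x))
  have hfrt : RT S2 frt := rcg3 S1 S2 frt hFRT (pb5 S2 S1 S2 (pb2 S2) hS12)
  have hnil : RT S2 fun _ : D => nil := (hRBA.1 S2 hPBS2).2 nil
  have hfrtsize : ∀ x : D, (frt x).size ≤ S2 x := by
    intro x
    refine le_trans ?_ (hS12 x)
    have h1 : (frk x (tmr x.fst x.snd.fst).toList.length).size ≤
        ∑ n ∈ Finset.range ((tmr x.fst x.snd.fst).toList.length + 1), (frk x n).size :=
      Finset.single_le_sum (f := fun n => (frk x n).size) (fun _ _ => Nat.zero_le _) (Finset.mem_range.2 (Nat.lt_succ_self _))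
    exact h1.trans (Nat.le_add_right _ _)
  obtain ⟨k, hk⟩ := hC.bound cv hDFD.2.1
  have hres := hRFX S2 S' hPBS2 (LST_f g) frt (fun _ => nil) (fun _ => nil) hf hfrt hnil hnil (by
    refine ⟨fun x => (S2 x + S2 x) + (8 + (S2 x + k) ^ k), ?_, ?_, ?_⟩
    · exact (pb3 S2 _ _ (pb3 S2 _ _ (pb2 S2) (pb2 S2)).1 (pb3 S2 _ _ (pb1 S2 8) (pb4 S2 S2 k (pb2 S2))).1).1
    · intro x L _
      have h1 := (LST_fold g L nil (by simp)).1
      show (L.foldl (fun acc h => LST_f g (cons acc (cons h nil))) nil).size ≤ _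
      refine h1.trans ?_
      show 3 ≤ (S2 x + S2 x) + (8 + (S2 x + k) ^ k)
      omega
    · intro x L h hh _
      have h1 := (LST_fold g L nil (by simp)).1
      show 2 ^ Mx (cv h) + (cons (L.foldl (fun acc h => LST_f g (cons acc (cons h nil))) nil) (cons h nil)).size + (cv h).size ≤
        (S2 x + S2 x) + (8 + (S2 x + k) ^ k)
      have h2 : (cons (L.foldl (fun acc h => LST_f g (cons acc (cons h nil))) nil) (cons h nil)).size ≤ h.size + 6 := by
        rw [size_cons, size_cons, size_nil]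
        omega
      have hx1 : 1 ≤ S2 x := (size_pos x).trans ((hs1 x).trans (hS12 x))
      have h3 : h.size ≤ S2 x := by
        rcases hh with rfl | hh
        · rw [size_nil]
          exact hx1
        · have h4 := size_mem _ _ hh
          have h5 := hfrtsize x
          omega
      have h6 : (cv h).size ≤ (S2 x + k) ^ k := (hk h).trans (Nat.pow_le_pow_left (Nat.add_le_add_right h3 k) k)
      have h7 : 2 ^ Mx (cv h) ≤ S2 x + 2 := by
        rcases hh with rfl | hh
        · have h8 : Mx (cv nil) = 1 := by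
            have h9 : cv nil = nil := rfl
            rw [h9]
            unfold Mx
            simp
          rw [h8]
          omega
        · have h8 := LST_sum (frt x).toList (fun F => 2 ^ Mx (cv F)) h hh
          have h9 : ((frt x).toList.map fun F => 2 ^ Mx (cv F)).sum ≤ S2 x := Nat.le_add_left _ _
          exact (h8.trans h9).trans (Nat.le_add_right _ _)
      omega)
  refine ⟨_, hres, ?_⟩
  intro x
  have h1 := (LST_fold g (frt x).toList nil (by simp)).2
  refine Iff.trans h1 ?_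
  constructor
  · rintro (h2 | ⟨G, hG, h3⟩)
    · exact absurd rfl h2
    · exact ⟨G, hG, (hsat _).1 h3⟩
  · rintro ⟨G, hG, h3⟩
    exact Or.inr ⟨G, hG, (hsat _).2 h3⟩

end Pool.Agent.EPT
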